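import Mathlib
import Pool.Agent.Helper98.BH.Defs
import Pool.Agent.Helper98.BH.Defs2

/-!
# MP_59646b_lc, module BH-5b: open sets are completely Ramsey (accept / reject)
-/

namespace Pool.Agent.BH

/-- statement of the fusion lemma (BH-5a) -/
def FusionStatement : Prop := ∀ (Φ : Finset ℕ → Set ℕ → Prop)
    (_ : ∀ t A B, B ⊆ A → Φ t A → Φ t B)
    (_ : ∀ t A, A.Infinite → ∃ B ⊆ A, B.Infinite ∧ Φ t B) (A : Set ℕ) (_ : A.Infinite),
    ∃ B ⊆ A, B.Infinite ∧ ∀ t : Finset ℕ, (t : Set ℕ) ⊆ B → Φ t (above t B)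

lemma above_subset (s : Finset ℕ) (A : Set ℕ) : above s A ⊆ A := fun _ h => h.1

lemma above_mono (s : Finset ℕ) {A B : Set ℕ} (h : A ⊆ B) : above s A ⊆ above s B :=
  fun _ hn => ⟨h hn.1, hn.2⟩

lemma above_infinite (s : Finset ℕ) {A : Set ℕ} (hA : A.Infinite) : (above s A).Infinite := by
  have h : (A \ {n | n ≤ s.sup id}).Infinite := hA.sdiff (Set.finite_le_nat _)
  refine h.mono fun n hn => ⟨hn.1, fun m hm => ?_⟩
  have h1 : m ≤ s.sup id := Finset.le_sup (f := id) hm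
  have h2 : ¬ n ≤ s.sup id := hn.2
  omega

/-- `B` accepts `t` -/
def Acc (M : Set (Set ℕ)) (t : Finset ℕ) (B : Set ℕ) : Prop := ∀ X ∈ Bas t B, X ∈ M

/-- `B` rejects `t` -/
def Rej (M : Set (Set ℕ)) (t : Finset ℕ) (B : Set ℕ) : Prop :=
  ∀ B' ⊆ B, B'.Infinite → ¬ Acc M t B'

lemma Bas_mono (t : Finset ℕ) {A B : Set ℕ} (h : A ⊆ B) : Bas t A ⊆ Bas t B :=
  fun _ hX => ⟨hX.1, hX.2.1, hX.2.2.trans (above_mono t h)⟩

lemma Acc.mono {M : Set (Set ℕ)} {t : Finset ℕ} {A B : Set ℕ} (h : B ⊆ A) (hA : Acc M t A) :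
    Acc M t B := fun X hX => hA X (Bas_mono t h hX)

lemma Rej.mono {M : Set (Set ℕ)} {t : Finset ℕ} {A B : Set ℕ} (h : B ⊆ A) (hA : Rej M t A) :
    Rej M t B := fun B' hB' hi => hA B' (hB'.trans h) hi

/-- the set of the `n` such that `B` accepts `t ∪ {n}` is finite if `B` rejects `t` -/
lemma finite_of_rej {M : Set (Set ℕ)} {u : Finset ℕ} {B B' : Set ℕ} (hB' : B' ⊆ B)
    (h : Rej M u B') : {n | n ∈ B' ∧ Acc M (insert n u) B}.Finite := by
  by_contra hfin
  have hinf : {n | n ∈ B' ∧ Acc M (insert n u) B}.Infinite := hfin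
  refine h _ (fun n hn => hn.1) hinf ?_
  intro X hX
  obtain ⟨hXi, huX, hX2⟩ := hX
  have hne : (X \ (u : Set ℕ)).Nonempty := by
    exact (hXi.sdiff u.finite_toSet).nonempty
  classical
  have hmem := Nat.sInf_mem hne
  set n := sInf (X \ (u : Set ℕ)) with hn
  have h1 := hX2 hmem
  refine h1.1.2 X ⟨hXi, ?_, ?_⟩
  · intro m hm
    have hm' : m ∈ insert n u := by exact_mod_cast hm
    rcases Finset.mem_insert.1 hm' with rfl | hm'
    · exact hmem.1
    · exact huX hm'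
  · intro m hm
    have hm1 : m ∉ insert n u := by
      intro hc
      exact hm.2 (by exact_mod_cast hc)
    have hm2 : m ∈ X \ (u : Set ℕ) := ⟨hm.1, fun hc => hm1 (Finset.mem_insert_of_mem hc)⟩
    have hm3 := hX2 hm2
    refine ⟨hB' hm3.1.1, fun k hk => ?_⟩
    rcases Finset.mem_insert.1 hk with rfl | hk
    · have h4 : n ≤ m := Nat.sInf_le hm2
      have h5 : m ≠ n := fun hc => hm1 (by rw [hc]; exact Finset.mem_insert_self _ _)
      omega
    · exact hm3.2 k hk

theorem CR_open_of_fusion (fusion : FusionStatement) (D : Finset ℕ → Prop) :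
    CR {X | ∃ t, Init t X ∧ D t} := by
  classical
  intro s A hA
  set M : Set (Set ℕ) := {X | ∃ t, Init t X ∧ D t} with hM
  -- first fusion : `B` decides all `s ∪ t`
  obtain ⟨B, hBA, hBi, hB⟩ := fusion (fun t B => Acc M (s ∪ t) B ∨ Rej M (s ∪ t) B)
    (fun t A B h hA => hA.imp (fun h' => h'.mono h) fun h' => h'.mono h)
    (fun t A hA => by
      by_cases h : ∃ B ⊆ A, B.Infinite ∧ Acc M (s ∪ t) B
      · obtain ⟨B, h1, h2, h3⟩ := h
        exact ⟨B, h1, h2, Or.inl h3⟩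
      · refine ⟨A, subset_rfl, hA, Or.inr ?_⟩
        intro B' hB' hi hacc
        exact h ⟨B', hB', hi, hacc⟩)
    (above s A) (above_infinite s hA)
  have hBA' : B ⊆ A := hBA.trans (above_subset s A)
  have hdec : ∀ t : Finset ℕ, (t : Set ℕ) ⊆ B →
      Acc M (s ∪ t) B ∨ Rej M (s ∪ t) (above t B) := by
    intro t ht
    rcases hB t ht with h | h
    · left
      intro X hX
      refine h X ⟨hX.1, hX.2.1, fun m hm => ?_⟩
      have h1 := hX.2.2 hm
      exact ⟨⟨h1.1, fun k hk => h1.2 k (Finset.mem_union_right _ hk)⟩, h1.2⟩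
    · exact Or.inr h
  by_cases h0 : Acc M s B
  · exact ⟨B, hBA', hBi, Or.inl h0⟩
  have hr0 : Rej M (s ∪ ∅) (above ∅ B) := by
    rcases hdec ∅ (by simp) with h | h
    · exact absurd (by simpa using h) h0
    · exact h
  -- second fusion
  obtain ⟨C, hCB, hCi, hC⟩ := fusion (fun t C => (t : Set ℕ) ⊆ B → Rej M (s ∪ t) (above t B) →
      ∀ n ∈ above t C, n ∈ B → ¬ Acc M (insert n (s ∪ t)) B)
    (fun t A C h hA h1 h2 n hn => hA h1 h2 n (above_mono t h hn))
    (fun t C hC => by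
      by_cases h : Rej M (s ∪ t) (above t B)
      · have hfin := finite_of_rej (above_subset t B) h
        refine ⟨C \ {n | n ∈ above t B ∧ Acc M (insert n (s ∪ t)) B}, Set.sdiff_subset,
          hC.sdiff hfin, ?_⟩
        intro _ _ n hn hnB hacc
        exact hn.1.2 ⟨⟨hnB, hn.2⟩, hacc⟩
      · exact ⟨C, subset_rfl, hC, fun _ h' => absurd h' h⟩)
    B hBi
  -- all `s ∪ t`, `t ⊆ C`, are rejected
  have hrej : ∀ t : Finset ℕ, (t : Set ℕ) ⊆ C → Rej M (s ∪ t) (above t B) := by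
    intro t
    induction t using Finset.induction_on_max with
    | empty => intro _; exact hr0
    | insert n t hn ih =>
      intro ht
      have htC : (t : Set ℕ) ⊆ C := fun m hm => ht (by
        exact_mod_cast Finset.mem_insert_of_mem (by exact_mod_cast hm))
      have hnC : n ∈ C := ht (by exact_mod_cast Finset.mem_insert_self n t)
      have h1 := ih htC
      have h2 := hC t htC (htC.trans hCB) h1 n ⟨⟨hnC, hn⟩, hn⟩ (hCB hnC)
      rcases hdec (insert n t) (ht.trans hCB) with h3 | h3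
      · rw [Finset.union_insert] at h3
        exact absurd h3 h2
      · exact h3
  refine ⟨C, hCB.trans hBA', hCi, Or.inr ?_⟩
  rintro X ⟨hXi, hsX, hX⟩ ⟨u, hu, hD⟩
  have hutC : ((u \ s : Finset ℕ) : Set ℕ) ⊆ C := by
    intro m hm
    have hm' : m ∈ u \ s := by exact_mod_cast hm
    rw [Finset.mem_sdiff] at hm'
    exact (hX ⟨hu.1 (by exact_mod_cast hm'.1), fun hc => hm'.2 (by exact_mod_cast hc)⟩).1
  have h1 := hrej _ hutC
  refine h1 _ subset_rfl (above_infinite _ hBi) ?_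
  rintro Y ⟨hYi, hY1, hY2⟩
  rw [Finset.union_sdiff_self_eq_union] at hY1 hY2
  refine ⟨u, ⟨fun m hm => hY1 (by
    exact_mod_cast Finset.mem_union_right _ (by exact_mod_cast hm)), ?_⟩, hD⟩
  intro y hy
  refine ⟨trivial, ?_⟩
  by_cases hys : y ∈ s
  · exact (hu.2 ⟨hsX hys, hy.2⟩).2
  · have h3 := hY2 ⟨hy.1, fun hc => by
      have hc' : y ∈ s ∪ u := by exact_mod_cast hc
      rcases Finset.mem_union.1 hc' with h | h
      · exact hys h
      · exact hy.2 (by exact_mod_cast h)⟩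
    exact fun m hm => h3.2 m (Finset.mem_union_right _ hm)

end Pool.Agent.BH
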