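import Mathlib
import Pool.Agent.Helper98.BH.Defs
import Pool.Agent.Helper98.BH.Defs2

/-!
# MP_59646b_lc, modules BH-6a and BH-6b: a co-analytic set of codes for the Borel sets
-/

namespace Pool.Agent.BH

open MeasureTheory

/-- the relation along which codes are evaluated -/
def CR1 (c : Bai) (t' t : List ℕ) : Prop := lab c t = 0 ∧ ∃ n, t' = t ++ [n]

lemma wf_CR1 (c : Bai) (hc : c ∉ Invalid) : WellFounded (CR1 c) := by
  rw [wellFounded_iff_isEmpty_descending_chain]
  refine ⟨fun ⟨x, hx⟩ => hc ?_⟩
  have hx1 : ∀ n, lab c (x n) = 0 := fun n => (hx n).1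
  choose m hm using fun n => (hx n).2
  set k := (x 0).length with hk
  have hlen : ∀ n, (x n).length = k + n := by
    intro n
    induction n with
    | zero => simp [hk]
    | succ n ih => rw [hm n, List.length_append, ih]; simp; omega
  refine ⟨fun i => if h : i < k then (x 0)[i] else m (i - k), k, fun n hn => ?_⟩
  have hres : ∀ n, res (fun i => if h : i < k then (x 0)[i] else m (i - k)) (k + n) = x n := by
    intro n
    induction n with
    | zero =>
      apply List.ext_getElem
      · simp [res, hk]
      · intro i h1 h2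
        simp only [res, List.getElem_map, List.getElem_range]
        rw [dif_pos h2]
    | succ n ih =>
      rw [hm n, ← ih]
      simp only [res]
      rw [← add_assoc, List.range_succ, List.map_append]
      congr 1
      simp
  have h := hres (n - k)
  rw [show k + (n - k) = n by omega] at h
  rw [h]
  exact hx1 _

theorem exists_ev {Z : Type} (O : ℕ → Set Z) (c : Bai) (hc : c ∉ Invalid) (z : Z) :
    ∃ e, Ev O c z e := by
  classical
  have wf := wf_CR1 c hc
  let F : (t : List ℕ) → (∀ t', CR1 c t' t → Prop) → Prop := fun t ih =>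
    if h : lab c t = 0 then ∀ n, ¬ ih (t ++ [n]) ⟨h, n, rfl⟩ else z ∈ O (lab c t - 1)
  let ev : List ℕ → Prop := wf.fix F
  have hev : ∀ t, ev t = F t (fun t' _ => ev t') := fun t => wf.fix_eq F t
  refine ⟨fun j => match (Encodable.decode j : Option (List ℕ)) with
    | some t => if ev t then 1 else 0
    | none => 0, fun t => ?_⟩
  have hstr : ∀ t, str (fun j => match (Encodable.decode j : Option (List ℕ)) with
    | some t => if ev t then 1 else 0
    | none => 0) t = if ev t then 1 else 0 := by
    intro t
    simp [str]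
  rw [hstr]
  refine ⟨fun m hm => ?_, fun h0 => ?_⟩
  · have h1 : ev t ↔ z ∈ O m := by
      rw [hev t]
      simp only [F]
      rw [dif_neg (by omega), hm]
      simp
    by_cases h : ev t
    · simp [h, h1.1 h]
    · simp only [h, if_false]
      exact ⟨fun h2 => absurd h2 (by norm_num), fun h2 => absurd (h1.2 h2) h⟩
  · have h1 : ev t ↔ ∀ n, ¬ ev (t ++ [n]) := by
      rw [hev t]
      simp only [F]
      rw [dif_pos h0]
    have h2 : (∀ n, str (fun j => match (Encodable.decode j : Option (List ℕ)) with
      | some t => if ev t then 1 else 0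
      | none => 0) (t ++ [n]) ≠ 1) ↔ ∀ n, ¬ ev (t ++ [n]) := by
      refine forall_congr' fun n => ?_
      rw [hstr]
      by_cases h : ev (t ++ [n]) <;> simp [h]
    rw [h2, ← h1]
    by_cases h : ev t <;> simp [h]

theorem ev_unique {Z : Type} (O : ℕ → Set Z) (c : Bai) (hc : c ∉ Invalid) (z : Z) (e e' : Bai)
    (he : Ev O c z e) (he' : Ev O c z e') : (str e [] = 1 ↔ str e' [] = 1) := by
  have wf := wf_CR1 c hc
  have key : ∀ t : List ℕ, (str e t = 1 ↔ str e' t = 1) := by
    intro t
    induction t using wf.induction with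
    | _ t ih =>
      rcases Nat.eq_zero_or_pos (lab c t) with h | h
      · rw [(he t).2 h, (he' t).2 h]
        exact forall_congr' fun n => not_congr (ih _ ⟨h, n, rfl⟩)
      · have h1 : lab c t = (lab c t - 1) + 1 := by omega
        rw [(he t).1 _ h1, (he' t).1 _ h1]
  exact key []

/-- the property of being coded -/
def Coded {Z : Type} (O : ℕ → Set Z) (A : Set Z) : Prop :=
  ∃ c ∉ Invalid, ∀ z e, Ev O c z e → (str e [] = 1 ↔ z ∈ A)

lemma res_succ' (β : Bai) (n : ℕ) : res β (n + 1) = β 0 :: res (fun i => β (i + 1)) n := by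
  simp only [res]
  rw [List.range_succ_eq_map, List.map_cons, List.map_map]
  rfl

lemma coded_nor {Z : Type} (O : ℕ → Set Z) (A : ℕ → Set Z) (h : ∀ n, Coded O (A n)) :
    Coded O (⋃ n, A n)ᶜ := by
  choose c hc hc2 using h
  let d : Bai := fun j => match (Encodable.decode j : Option (List ℕ)) with
    | some (n :: t) => lab (c n) t
    | _ => 0
  have hd0 : lab d [] = 0 := by simp [lab, d]
  have hd1 : ∀ n t, lab d (n :: t) = lab (c n) t := by
    intro n t
    have : (Encodable.decode (Encodable.encode (n :: t)) : Option (List ℕ)) = some (n :: t) :=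
      Encodable.encodek _
    simp only [lab, d, this]
  refine ⟨d, ?_, ?_⟩
  · rintro ⟨β, k, hβ⟩
    refine hc (β 0) ⟨fun i => β (i + 1), k, fun n hn => ?_⟩
    have h1 := hβ (n + 1) (by omega)
    rw [res_succ', hd1] at h1
    exact h1
  · intro z e he
    have he1 : ∀ n, Ev O (c n) z (fun j => match (Encodable.decode j : Option (List ℕ)) with
        | some t => str e (n :: t)
        | none => 0) := by
      intro n t
      have hs : ∀ t, str (fun j => match (Encodable.decode j : Option (List ℕ)) with
        | some t => str e (n :: t)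
        | none => 0) t = str e (n :: t) := by
        intro t
        simp [str]
      have h1 := he (n :: t)
      rw [hd1] at h1
      rw [hs]
      refine ⟨h1.1, fun h0 => ?_⟩
      rw [h1.2 h0]
      refine forall_congr' fun m => ?_
      rw [hs]
      rfl
    have hs0 : ∀ n, str (fun j => match (Encodable.decode j : Option (List ℕ)) with
        | some t => str e (n :: t)
        | none => 0) [] = str e [n] := by
      intro n
      simp [str]
    have h2 := (he []).2 hd0
    rw [h2]
    simp only [Set.mem_compl_iff, Set.mem_iUnion, not_exists]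
    refine forall_congr' fun n => ?_
    have h3 := hc2 n z _ (he1 n)
    rw [hs0] at h3
    rw [← h3]
    rfl

theorem exists_code {Z : Type} [m : MeasurableSpace Z] (O : ℕ → Set Z)
    (hO : m = MeasurableSpace.generateFrom (Set.range O)) (A : Set Z) (hA : MeasurableSet A) :
    ∃ c ∉ Invalid, ∀ z e, Ev O c z e → (str e [] = 1 ↔ z ∈ A) := by
  have hbase : ∀ i, Coded O (O i) := by
    intro i
    have hl : ∀ t, lab (fun _ => i + 1) t = i + 1 := fun t => rfl
    refine ⟨fun _ => i + 1, ?_, ?_⟩
    · rintro ⟨β, k, hβ⟩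
      have := hβ k le_rfl
      rw [hl] at this
      omega
    · intro z e he
      exact (he []).1 i (hl _)
  have hcompl : ∀ A, Coded O A → Coded O Aᶜ := by
    intro A hA
    have h := coded_nor O (fun _ => A) (fun _ => hA)
    rwa [Set.iUnion_const] at h
  have key : ∀ A : Set Z, MeasurableSet[MeasurableSpace.generateFrom (Set.range O)] A →
      Coded O A := by
    intro A hA
    refine MeasurableSpace.generateFrom_induction (Set.range O)
      (fun A _ => Coded O A) ?_ ?_ ?_ ?_ A hA
    · rintro t ⟨i, rfl⟩ _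
      exact hbase i
    · have h := coded_nor O (fun n => if n = 0 then O 0 else (O 0)ᶜ) (fun n => by
        split_ifs
        · exact hbase 0
        · exact hcompl _ (hbase 0))
      convert h using 1
      symm
      rw [Set.compl_empty_iff, Set.eq_univ_iff_forall]
      intro z
      rw [Set.mem_iUnion]
      by_cases hz : z ∈ O 0
      · exact ⟨0, by simpa using hz⟩
      · exact ⟨1, by simpa using hz⟩
    · intro t _ ht
      exact hcompl t ht
    · intro s _ hs
      have h := hcompl _ (coded_nor O s hs)
      rwa [compl_compl] at h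
  subst hO
  exact key A hA

/-- BH-6b -/
theorem exists_coding (Z : Type) [TopologicalSpace Z] [PolishSpace Z] [MeasurableSpace Z]
    [BorelSpace Z] :
    ∃ (Inv : Set Bai) (P N : Set (Bai × Z)), AnalyticSet Inv ∧ AnalyticSet P ∧ AnalyticSet N ∧
      (∀ c ∉ Inv, ∀ z, ((c, z) ∈ P ↔ (c, z) ∉ N)) ∧
      (∀ A : Set Z, MeasurableSet A → ∃ c ∉ Inv, ∀ z, (c, z) ∈ P ↔ z ∈ A) := by
  -- a countable generating family
  obtain ⟨O, hOm, hO⟩ : ∃ O : ℕ → Set Z, (∀ i, MeasurableSet (O i)) ∧
      (inferInstance : MeasurableSpace Z) = MeasurableSpace.generateFrom (Set.range O) := by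
    have hcb := TopologicalSpace.countable_countableBasis Z
    have hne : (insert ∅ (TopologicalSpace.countableBasis Z)).Nonempty := ⟨∅, Set.mem_insert _ _⟩
    obtain ⟨O, hO⟩ := (hcb.insert ∅).exists_eq_range hne
    refine ⟨O, fun i => ?_, ?_⟩
    · have : O i ∈ insert ∅ (TopologicalSpace.countableBasis Z) := by
        rw [hO]; exact ⟨i, rfl⟩
      rcases this with h | h
      · rw [h]; exact MeasurableSet.empty
      · exact (TopologicalSpace.isOpen_of_mem_countableBasis h).measurableSet
    · rw [← hO]
      have h1 : (inferInstance : MeasurableSpace Z) = borel Z := BorelSpace.measurable_eq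
      rw [h1, (TopologicalSpace.isBasis_countableBasis Z).borel_eq_generateFrom]
      apply le_antisymm
      · exact MeasurableSpace.generateFrom_mono (Set.subset_insert _ _)
      · refine MeasurableSpace.generateFrom_le ?_
        rintro t (h | h)
        · rw [h]; exact @MeasurableSet.empty Z (MeasurableSpace.generateFrom _)
        · exact MeasurableSpace.measurableSet_generateFrom h
  have hlab : ∀ t : List ℕ, Measurable fun c : Bai => lab c t :=
    fun t => measurable_pi_apply _
  have hstr : ∀ t : List ℕ, Measurable fun c : Bai => str c t :=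
    fun t => measurable_pi_apply _
  -- the invalid codes
  have hInv : AnalyticSet Invalid := by
    have hset : MeasurableSet {q : Bai × (Bai × ℕ) | ∀ n, q.2.2 ≤ n →
        lab q.1 (res q.2.1 n) = 0} := by
      have : {q : Bai × (Bai × ℕ) | ∀ n, q.2.2 ≤ n → lab q.1 (res q.2.1 n) = 0} =
          ⋂ n : ℕ, ({q : Bai × (Bai × ℕ) | ¬ q.2.2 ≤ n} ∪
            {q : Bai × (Bai × ℕ) | lab q.1 (res q.2.1 n) = 0}) := by
        ext q
        simp only [Set.mem_ofPred_eq, Set.mem_iInter, Set.mem_union]
        exact forall_congr' fun n => by tauto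
      rw [this]
      refine MeasurableSet.iInter fun n => MeasurableSet.union ?_ ?_
      · exact (measurableSet_le (measurable_snd.comp measurable_snd) measurable_const).compl
      · have hc : MeasurableSet (⋃ v : Fin n → ℕ,
            ((⋂ i : Fin n, {q : Bai × (Bai × ℕ) | q.2.1 i = v i}) ∩
            {q : Bai × (Bai × ℕ) | lab q.1 (List.ofFn v) = 0})) := by
          refine MeasurableSet.iUnion fun v => MeasurableSet.inter
            (MeasurableSet.iInter fun i => ?_) ?_
          · have hm : Measurable fun q : Bai × (Bai × ℕ) => q.2.1 (i : ℕ) :=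
              (measurable_pi_apply (i : ℕ)).comp (measurable_fst.comp measurable_snd)
            exact hm (MeasurableSet.singleton (v i))
          · exact ((hlab _).comp measurable_fst) (MeasurableSet.singleton 0)
        convert hc using 1
        ext q
        have hres : ∀ v : Fin n → ℕ, (∀ i : Fin n, q.2.1 i = v i) →
            res q.2.1 n = List.ofFn v := by
          intro v hv
          simp only [res]
          apply List.ext_getElem
          · simp
          · intro i h1 h2
            simp only [List.length_map, List.length_range] at h1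
            simpa using hv ⟨i, h1⟩
        simp only [Set.mem_ofPred_eq, Set.mem_iUnion, Set.mem_inter_iff, Set.mem_iInter]
        constructor
        · intro h
          refine ⟨fun i => q.2.1 i, fun i => rfl, ?_⟩
          rw [← hres _ (fun i => rfl)]
          exact h
        · rintro ⟨v, hv, h⟩
          rw [hres v hv]
          exact h
    have himg : Invalid = Prod.fst '' {q : Bai × (Bai × ℕ) | ∀ n, q.2.2 ≤ n →
        lab q.1 (res q.2.1 n) = 0} := by
      ext c
      constructor
      · rintro ⟨β, k, h⟩
        exact ⟨(c, (β, k)), h, rfl⟩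
      · rintro ⟨⟨c', β, k⟩, h, rfl⟩
        exact ⟨β, k, h⟩
    rw [himg]
    exact hset.analyticSet.image_of_continuous continuous_fst
  have hEv : MeasurableSet {q : (Bai × Z) × Bai | Ev O q.1.1 q.1.2 q.2} := by
    have : {q : (Bai × Z) × Bai | Ev O q.1.1 q.1.2 q.2} = ⋂ t : List ℕ,
        ((⋂ m : ℕ, ({q : (Bai × Z) × Bai | lab q.1.1 t = m + 1}ᶜ ∪
            (({q : (Bai × Z) × Bai | str q.2 t = 1} ∩ {q : (Bai × Z) × Bai | q.1.2 ∈ O m}) ∪
            ({q : (Bai × Z) × Bai | str q.2 t = 1}ᶜ ∩
              {q : (Bai × Z) × Bai | q.1.2 ∈ O m}ᶜ)))) ∩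
          ({q : (Bai × Z) × Bai | lab q.1.1 t = 0}ᶜ ∪
            (({q : (Bai × Z) × Bai | str q.2 t = 1} ∩
              ⋂ n : ℕ, {q : (Bai × Z) × Bai | str q.2 (t ++ [n]) = 1}ᶜ) ∪
            ({q : (Bai × Z) × Bai | str q.2 t = 1}ᶜ ∩
              (⋂ n : ℕ, {q : (Bai × Z) × Bai | str q.2 (t ++ [n]) = 1}ᶜ)ᶜ)))) := by
      ext q
      simp only [Ev, Set.mem_ofPred_eq, Set.mem_iInter, Set.mem_inter_iff, Set.mem_union,
        Set.mem_compl_iff]
      refine forall_congr' fun t => and_congr (forall_congr' fun m => ?_) ?_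
      · tauto
      · by_cases h0 : lab q.1.1 t = 0
        · simp only [h0, forall_true_left, not_true_eq_false, false_or]
          by_cases h1 : str q.2 t = 1 <;> simp [h1]
        · simp [h0]
    rw [this]
    have hl : ∀ (t : List ℕ) (a : ℕ), MeasurableSet {q : (Bai × Z) × Bai | lab q.1.1 t = a} :=
      fun t a => ((hlab t).comp (measurable_fst.comp measurable_fst)) (MeasurableSet.singleton a)
    have hs : ∀ (t : List ℕ), MeasurableSet {q : (Bai × Z) × Bai | str q.2 t = 1} :=
      fun t => ((hstr t).comp measurable_snd) (MeasurableSet.singleton 1)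
    have hz : ∀ m, MeasurableSet {q : (Bai × Z) × Bai | q.1.2 ∈ O m} :=
      fun m => (measurable_snd.comp measurable_fst) (hOm m)
    have hn : ∀ t : List ℕ,
        MeasurableSet (⋂ n : ℕ, {q : (Bai × Z) × Bai | str q.2 (t ++ [n]) = 1}ᶜ) :=
      fun t => MeasurableSet.iInter fun n => (hs _).compl
    refine MeasurableSet.iInter fun t => MeasurableSet.inter
      (MeasurableSet.iInter fun m => ?_) ?_
    · exact (hl t _).compl.union (((hs t).inter (hz m)).union ((hs t).compl.inter (hz m).compl))
    · exact (hl t _).compl.union (((hs t).inter (hn t)).union ((hs t).compl.inter (hn t).compl))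
  have hs0 : MeasurableSet {q : (Bai × Z) × Bai | str q.2 [] = 1} :=
    ((hstr []).comp measurable_snd) (MeasurableSet.singleton 1)
  refine ⟨Invalid, {p | ∃ e, Ev O p.1 p.2 e ∧ str e [] = 1},
    {p | ∃ e, Ev O p.1 p.2 e ∧ str e [] ≠ 1}, hInv, ?_, ?_, ?_, ?_⟩
  · have himg : {p : Bai × Z | ∃ e, Ev O p.1 p.2 e ∧ str e [] = 1} = Prod.fst ''
        ({q : (Bai × Z) × Bai | Ev O q.1.1 q.1.2 q.2} ∩
          {q : (Bai × Z) × Bai | str q.2 [] = 1}) := by
      ext p
      constructor
      · rintro ⟨e, h1, h2⟩
        exact ⟨(p, e), ⟨h1, h2⟩, rfl⟩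
      · rintro ⟨⟨p', e⟩, ⟨h1, h2⟩, rfl⟩
        exact ⟨e, h1, h2⟩
    rw [himg]
    exact (hEv.inter hs0).analyticSet.image_of_continuous continuous_fst
  · have himg : {p : Bai × Z | ∃ e, Ev O p.1 p.2 e ∧ str e [] ≠ 1} = Prod.fst ''
        ({q : (Bai × Z) × Bai | Ev O q.1.1 q.1.2 q.2} ∩
          {q : (Bai × Z) × Bai | str q.2 [] = 1}ᶜ) := by
      ext p
      constructor
      · rintro ⟨e, h1, h2⟩
        exact ⟨(p, e), ⟨h1, h2⟩, rfl⟩
      · rintro ⟨⟨p', e⟩, ⟨h1, h2⟩, rfl⟩
        exact ⟨e, h1, h2⟩
    rw [himg]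
    exact (hEv.inter hs0.compl).analyticSet.image_of_continuous continuous_fst
  · intro c hc z
    constructor
    · rintro ⟨e, h1, h2⟩ ⟨e', h1', h2'⟩
      exact h2' ((ev_unique O c hc z e e' h1 h1').1 h2)
    · intro h
      obtain ⟨e, he⟩ := exists_ev O c hc z
      by_cases h1 : str e [] = 1
      · exact ⟨e, he, h1⟩
      · exact absurd ⟨e, he, h1⟩ h
  · intro A hA
    obtain ⟨c, hc, h⟩ := exists_code O hO A hA
    refine ⟨c, hc, fun z => ⟨?_, fun hz => ?_⟩⟩
    · rintro ⟨e, h1, h2⟩
      exact (h z e h1).1 h2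
    · obtain ⟨e, he⟩ := exists_ev O c hc z
      exact ⟨e, he, (h z e he).2 hz⟩

end Pool.Agent.BH
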